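import Pool.Agent.R99.Mem.Neg2

namespace Pool.Agent.Results.MP_4814b8_lc.BothGeneral

open Pool.Agent.R99.Mem

/-- Q1: yes. -/
theorem result : ∃ (C : Type) (_ : Finite C) (_ : Nonempty C) (W : Set (ℕ → C)),
    GenMem W < ⊤ ∧ GenMem Wᶜ < ⊤ ∧ ChrMem W = ⊤ :=
  ⟨Col, inferInstance, ⟨Col.x⟩, W₀, genMem_lt (by norm_num) W₀_gen,
    genMem_lt (by norm_num) W₀_neg, chrMem_eq W₀_chr⟩

end Pool.Agent.Results.MP_4814b8_lc.BothGeneral
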